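import Pool.Agent.H82.FP.Targets

/-!
MP_ee74d2_an, KSA: the number of four-stars with given ends.
-/

set_option autoImplicit false

namespace Pool.Agent.H89.FP

open Pool.Agent.H82.FP
open Pool.Agent.H83.G
open Pool.Agent.H22.G4 (nv Ind)
open Pool.Agent.H22.G (co)
open scoped RealInnerProductSpace

lemma cnt_int (a r : ℝ) (hr : 1 ≤ r) (S : Finset ℤ) (h : ∀ x ∈ S, |(x : ℝ) - a| ≤ r) :
    (S.card : ℝ) ≤ 3 * r := by
  have hsub : S ⊆ Finset.Icc ⌈a - r⌉ ⌊a + r⌋ := by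
    intro x hx
    have := abs_le.1 (h x hx)
    rw [Finset.mem_Icc]
    constructor
    · rw [Int.ceil_le]; linarith [this.1]
    · rw [Int.le_floor]; linarith [this.2]
  have h1 := Finset.card_le_card hsub
  rw [Int.card_Icc] at h1
  have h3 : (⌊a + r⌋ : ℝ) ≤ a + r := Int.floor_le _
  have h4 : a - r ≤ (⌈a - r⌉ : ℝ) := Int.le_ceil _
  rcases le_total 0 (⌊a + r⌋ + 1 - ⌈a - r⌉) with h5 | h5
  · have h6 : (S.card : ℤ) ≤ ⌊a + r⌋ + 1 - ⌈a - r⌉ := by omega
    have h7 : ((S.card : ℤ) : ℝ) ≤ ((⌊a + r⌋ + 1 - ⌈a - r⌉ : ℤ) : ℝ) := Int.cast_le.2 h6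
    push_cast at h7
    linarith
  · have h6 : S.card = 0 := by omega
    rw [h6]
    push_cast
    linarith

lemma cnt_pi (a : Fin 2 → ℝ) (r : ℝ) (hr : 1 ≤ r) (S : Finset (Fin 2 → ℤ))
    (h : ∀ x ∈ S, ∀ i, |(x i : ℝ) - a i| ≤ r) : (S.card : ℝ) ≤ (3 * r) ^ 2 := by
  classical
  have hsub : S ⊆ Fintype.piFinset (fun i => S.image (fun x => x i)) := by
    intro x hx
    rw [Fintype.mem_piFinset]
    intro i
    exact Finset.mem_image_of_mem _ hx
  have h1 := Finset.card_le_card hsub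
  rw [Fintype.card_piFinset] at h1
  have h2 : ∀ i, ((S.image (fun x => x i)).card : ℝ) ≤ 3 * r := by
    intro i
    refine cnt_int (a i) r hr _ ?_
    intro x hx
    obtain ⟨y, hy, rfl⟩ := Finset.mem_image.1 hx
    exact h y hy i
  calc (S.card : ℝ) ≤ ((∏ i, (S.image (fun x => x i)).card : ℕ) : ℝ) := by exact_mod_cast h1
    _ = ∏ i, ((S.image (fun x => x i)).card : ℝ) := Nat.cast_prod _ _
    _ ≤ ∏ i : Fin 2, (3 * r) :=
        Finset.prod_le_prod (fun i _ => Nat.cast_nonneg _) (fun i _ => h2 i)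
    _ = (3 * r) ^ 2 := by simp

lemma cnt_Zi (a : ℝ) (b : Fin 2 → ℝ) (c r : ℝ) (hr : 1 ≤ r) (S : Finset (Zi 2))
    (h : ∀ x ∈ S, |(x.1 : ℝ) - a| ≤ r ∧ (∀ i, |(x.2.1 i : ℝ) - b i| ≤ r) ∧
      |(x.2.2 : ℝ) - c| ≤ r) :
    (S.card : ℝ) ≤ (3 * r) ^ 4 := by
  classical
  have hsub : S ⊆ (S.image (fun x => x.1)) ×ˢ
      ((S.image (fun x => x.2.1)) ×ˢ (S.image (fun x => x.2.2))) := by
    intro x hx
    simp only [Finset.mem_product]
    exact ⟨Finset.mem_image_of_mem _ hx, Finset.mem_image_of_mem _ hx,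
      Finset.mem_image_of_mem _ hx⟩
  have h1 := Finset.card_le_card hsub
  rw [Finset.card_product, Finset.card_product] at h1
  have h2 : ((S.image (fun x => x.1)).card : ℝ) ≤ 3 * r := cnt_int a r hr _ (by
    intro x hx
    obtain ⟨y, hy, rfl⟩ := Finset.mem_image.1 hx
    exact (h y hy).1)
  have h3 : ((S.image (fun x => x.2.1)).card : ℝ) ≤ (3 * r) ^ 2 := cnt_pi b r hr _ (by
    intro x hx
    obtain ⟨y, hy, rfl⟩ := Finset.mem_image.1 hx
    exact (h y hy).2.1)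
  have h4 : ((S.image (fun x => x.2.2)).card : ℝ) ≤ 3 * r := cnt_int c r hr _ (by
    intro x hx
    obtain ⟨y, hy, rfl⟩ := Finset.mem_image.1 hx
    exact (h y hy).2.2)
  have h5 : (S.card : ℝ) ≤ ((S.image (fun x => x.1)).card : ℝ) *
      (((S.image (fun x => x.2.1)).card : ℝ) * ((S.image (fun x => x.2.2)).card : ℝ)) := by
    exact_mod_cast h1
  calc (S.card : ℝ) ≤ _ := h5
    _ ≤ (3 * r) * ((3 * r) ^ 2 * (3 * r)) := by gcongr
    _ = (3 * r) ^ 4 := by ring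

lemma co_ball (R ρ : ℝ) (hR : 1 ≤ R) (q : Zi 2) (u : Z 2) (h : ‖co R q - u‖ ≤ ρ * Real.sqrt R) :
    |(q.1 : ℝ) - u.1 / Real.sqrt R| ≤ ρ ∧ (∀ i, |(q.2.1 i : ℝ) - u.2.1 i / Real.sqrt R| ≤ ρ) ∧
    |(q.2.2 : ℝ) - u.2.2 / Real.sqrt R| ≤ ρ := by
  have hs : 0 < Real.sqrt R := Real.sqrt_pos.2 (by linarith)
  have key : ∀ x y : ℝ, |Real.sqrt R * x - y| ≤ ρ * Real.sqrt R →
      |x - y / Real.sqrt R| ≤ ρ := by
    intro x y hxy
    have : x - y / Real.sqrt R = (Real.sqrt R * x - y) / Real.sqrt R := by field_simp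
    rw [this, abs_div, abs_of_pos hs, div_le_iff₀ hs]
    exact hxy
  have h0 := norm_prod_le_iff.1 h
  have h0' := norm_prod_le_iff.1 h0.2
  refine ⟨key _ _ ?_, fun i => key _ _ ?_, key _ _ ?_⟩
  · exact h0.1
  · have h2 := (PiLp.norm_apply_le (co R q - u).2.1 i).trans h0'.1
    exact h2
  · exact h0'.2

lemma dv_err (η : E 2) (w : Z 2) (D : ℝ) (hη : ‖η‖ ≤ 3) (h1 : |(Lo η 1 w).1| ≤ D)
    (h2 : ‖(Lo η 1 w).2.1‖ ≤ D) : ‖w - w.2.2 • Dv η‖ ≤ 4 * D := by
  have hD : 0 ≤ D := (abs_nonneg _).trans h1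
  have e2 : (Lo η 1 w).2.1 = w.2.1 + (2 * w.2.2) • η := by
    simp [Lo]
  have e1 : (Lo η 1 w).1 = w.1 + ⟪w.2.1, η⟫ + w.2.2 * ‖η‖ ^ 2 := rfl
  have e3 : w.1 - w.2.2 * ‖η‖ ^ 2 = (Lo η 1 w).1 - ⟪(Lo η 1 w).2.1, η⟫ := by
    rw [e1, e2, inner_add_left, real_inner_smul_left, real_inner_self_eq_norm_sq]
    ring
  have h3 : |⟪(Lo η 1 w).2.1, η⟫| ≤ 3 * D := by
    calc |⟪(Lo η 1 w).2.1, η⟫| ≤ ‖(Lo η 1 w).2.1‖ * ‖η‖ := abs_real_inner_le_norm _ _
      _ ≤ D * 3 := by gcongr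
      _ = 3 * D := by ring
  refine norm_prod_le_iff.2 ⟨?_, norm_prod_le_iff.2 ⟨?_, ?_⟩⟩
  · show ‖w.1 - w.2.2 * ‖η‖ ^ 2‖ ≤ 4 * D
    rw [e3, Real.norm_eq_abs]
    calc |(Lo η 1 w).1 - ⟪(Lo η 1 w).2.1, η⟫| ≤ |(Lo η 1 w).1| + |⟪(Lo η 1 w).2.1, η⟫| :=
          abs_sub _ _
      _ ≤ D + 3 * D := add_le_add h1 h3
      _ = 4 * D := by ring
  · show ‖w.2.1 - w.2.2 • ((-2 : ℝ) • η)‖ ≤ 4 * D
    have e4 : w.2.1 - w.2.2 • ((-2 : ℝ) • η) = (Lo η 1 w).2.1 := by
      rw [e2, smul_smul, sub_eq_add_neg, ← neg_smul]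
      congr 2
      ring
    rw [e4]
    linarith
  · show ‖w.2.2 - w.2.2 * 1‖ ≤ 4 * D
    simp
    exact hD

lemma dv_norm (η : E 2) (hη : ‖η‖ ≤ 3) : ‖Dv η‖ ≤ 9 := by
  refine norm_prod_le_iff.2 ⟨?_, norm_prod_le_iff.2 ⟨?_, ?_⟩⟩
  · show ‖‖η‖ ^ 2‖ ≤ 9
    rw [Real.norm_eq_abs, abs_of_nonneg (by positivity)]
    nlinarith [norm_nonneg η]
  · show ‖(-2 : ℝ) • η‖ ≤ 9
    rw [norm_smul]
    norm_num
    linarith
  · show ‖(1 : ℝ)‖ ≤ 9
    norm_num

/-- counting of the tubes through a cube -/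
lemma cnt_tubes (R δ D B : ℝ) (q : Zi 2) (TT : Finset (Pk 2)) (hD : 0 ≤ D)
    (hC : ∀ (k : Fin 2 → ℤ) (q : Zi 2) (TT : Finset (Pk 2)), ‖ctr (sR R) k‖ ≤ 3 →
      (∀ T ∈ TT, T.1 = k ∧ Inc R δ T q) → (TT.card : ℝ) ≤ D)
    (h3 : ∀ T ∈ TT, ‖ctr (sR R) T.1‖ ≤ 3 ∧ Inc R δ T q)
    (hB : ∀ S : Finset (Fin 2 → ℤ), (∀ k ∈ S, ∃ T ∈ TT, T.1 = k) → (S.card : ℝ) ≤ B) :
    (TT.card : ℝ) ≤ B * D := by
  classical
  rw [Finset.card_eq_sum_card_image Prod.fst TT]
  push_cast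
  calc (∑ k ∈ TT.image Prod.fst, ((TT.filter fun T => T.1 = k).card : ℝ))
      ≤ ∑ k ∈ TT.image Prod.fst, D := by
        refine Finset.sum_le_sum fun k hk => ?_
        obtain ⟨T, hT, rfl⟩ := Finset.mem_image.1 hk
        refine hC T.1 q _ (h3 T hT).1 ?_
        intro T' hT'
        rw [Finset.mem_filter] at hT'
        exact ⟨hT'.2, (h3 T' hT'.1).2⟩
    _ = ((TT.image Prod.fst).card : ℝ) * D := by rw [Finset.sum_const, nsmul_eq_mul]
    _ ≤ B * D := by
        refine mul_le_mul_of_nonneg_right (hB _ ?_) hD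
        intro k hk
        obtain ⟨T, hT, rfl⟩ := Finset.mem_image.1 hk
        exact ⟨T, hT, rfl⟩

open Classical in
/-- counting of the stars -/
lemma cnt_stars (A N : ℝ) (F : Finset (Zi 2 × (Fin 4 → Pk 2))) (hN : 0 ≤ N)
    (hA : ((F.image Prod.fst).card : ℝ) ≤ A)
    (hT : ∀ (q : Zi 2) (i : Fin 4),
      (((F.filter fun f => f.1 = q).image fun f => f.2 i).card : ℝ) ≤ N) :
    (F.card : ℝ) ≤ A * N ^ 4 := by
  rw [Finset.card_eq_sum_card_image Prod.fst F]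
  push_cast
  calc (∑ q ∈ F.image Prod.fst, ((F.filter fun f => f.1 = q).card : ℝ))
      ≤ ∑ q ∈ F.image Prod.fst, N ^ 4 := by
        refine Finset.sum_le_sum fun q hq => ?_
        have h1 : (F.filter fun f => f.1 = q).card ≤
            ∏ i, ((F.filter fun f => f.1 = q).image fun f => f.2 i).card := by
          rw [← Fintype.card_piFinset]
          refine Finset.card_le_card_of_injOn (fun f => f.2) ?_ ?_
          · intro f hf
            rw [Finset.mem_coe, Fintype.mem_piFinset]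
            intro i
            exact Finset.mem_image_of_mem (fun f : Zi 2 × (Fin 4 → Pk 2) => f.2 i) hf
          · intro f hf f' hf' hff'
            have e1 := (Finset.mem_filter.1 hf).2
            have e2 := (Finset.mem_filter.1 hf').2
            exact Prod.ext (e1.trans e2.symm) hff'
        calc ((F.filter fun f => f.1 = q).card : ℝ)
            ≤ ((∏ i, ((F.filter fun f => f.1 = q).image fun f => f.2 i).card : ℕ) : ℝ) := by
              exact_mod_cast h1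
          _ = ∏ i, (((F.filter fun f => f.1 = q).image fun f => f.2 i).card : ℝ) :=
              Nat.cast_prod _ _
          _ ≤ ∏ i : Fin 4, N :=
              Finset.prod_le_prod (fun i _ => Nat.cast_nonneg _) (fun i _ => hT q i)
          _ = N ^ 4 := by simp
    _ = ((F.image Prod.fst).card : ℝ) * N ^ 4 := by rw [Finset.sum_const, nsmul_eq_mul]
    _ ≤ A * N ^ 4 := by gcongr

lemma ctr_ball (R ρ : ℝ) (hR : 1 ≤ R) (k : Fin 2 → ℤ) (v : E 2)
    (h : ‖ctr (sR R) k - v‖ ≤ ρ / Real.sqrt R) (i : Fin 2) :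
    |(k i : ℝ) - 3 * Real.sqrt R * v i| ≤ 3 * ρ := by
  have hs : 0 < Real.sqrt R := Real.sqrt_pos.2 (by linarith)
  have h1 := (PiLp.norm_apply_le (ctr (sR R) k - v) i).trans h
  have e1 : (ctr (sR R) k - v) i = (Real.sqrt R)⁻¹ / 3 * (k i : ℝ) - v i := by
    simp [ctr, sR]
    norm_num
  rw [e1, Real.norm_eq_abs, le_div_iff₀ hs] at h1
  have e2 : (k i : ℝ) - 3 * Real.sqrt R * v i =
      3 * (((Real.sqrt R)⁻¹ / 3 * (k i : ℝ) - v i) * Real.sqrt R) := by
    field_simp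
  rw [e2, abs_mul, abs_mul, abs_of_pos hs, abs_of_pos (by norm_num : (0 : ℝ) < 3)]
  linarith

/-- cubes in two balls -/
lemma cnt_two (R ρ : ℝ) (hR : 1 ≤ R) (hρ : 1 ≤ ρ) (u : Fin 2 → Z 2) (S : Finset (Zi 2))
    (h : ∀ q ∈ S, ∃ j, ‖co R q - u j‖ ≤ ρ * Real.sqrt R) : (S.card : ℝ) ≤ 2 * (3 * ρ) ^ 4 := by
  classical
  have h1 : ∀ j, ((S.filter fun q => ‖co R q - u j‖ ≤ ρ * Real.sqrt R).card : ℝ) ≤
      (3 * ρ) ^ 4 := by
    intro j
    refine cnt_Zi ((u j).1 / Real.sqrt R) (fun i => (u j).2.1 i / Real.sqrt R)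
      ((u j).2.2 / Real.sqrt R) ρ hρ _ ?_
    intro q hq
    exact co_ball R ρ hR q (u j) (Finset.mem_filter.1 hq).2
  have hsub : S ⊆ (S.filter fun q => ‖co R q - u 0‖ ≤ ρ * Real.sqrt R) ∪
      (S.filter fun q => ‖co R q - u 1‖ ≤ ρ * Real.sqrt R) := by
    intro q hq
    obtain ⟨j, hj⟩ := h q hq
    rw [Finset.mem_union, Finset.mem_filter, Finset.mem_filter]
    fin_cases j
    · exact Or.inl ⟨hq, hj⟩
    · exact Or.inr ⟨hq, hj⟩
  have h2 := (Finset.card_le_card hsub).trans (Finset.card_union_le _ _)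
  have h3 : (S.card : ℝ) ≤
      ((S.filter fun q => ‖co R q - u 0‖ ≤ ρ * Real.sqrt R).card : ℝ) +
      ((S.filter fun q => ‖co R q - u 1‖ ≤ ρ * Real.sqrt R).card : ℝ) := by exact_mod_cast h2
  linarith [h1 0, h1 1]

theorem pf_KSA (hKG : T_KG) (hHG1 : Pool.Agent.H22.G.T_HG1) (hHG2 : Pool.Agent.H22.G.T_HG2) :
    T_KSA := by
  classical
  obtain ⟨CK, E, hCK, hE, hKG⟩ := hKG
  obtain ⟨C1, hC1, hHG1⟩ := hHG1 2
  obtain ⟨C2, hC2, hHG2⟩ := hHG2 2
  have hb1 : (1 : ℝ) ≤ (18 * C1) ^ (E + 1) := Real.one_le_rpow (by linarith) (by linarith)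
  have hb2 : (1 : ℝ) ≤ 240 * C1 * CK * (18 * C1) ^ (E + 1) := by
    have h1 : (1 : ℝ) ≤ 240 * C1 := by linarith
    exact one_le_mul_of_one_le_of_one_le (one_le_mul_of_one_le_of_one_le h1 hCK) hb1
  have hb3 : (1 : ℝ) ≤ (216 * C1) ^ 2 * C2 :=
    one_le_mul_of_one_le_of_one_le (one_le_pow₀ (by linarith)) hC2
  refine ⟨2 * (240 * C1 * CK * (18 * C1) ^ (E + 1)) ^ 4 * ((216 * C1) ^ 2 * C2) ^ 4,
    8 * E + 40, ?_, by positivity, ?_⟩
  · have h1 := one_le_pow₀ (n := 4) hb2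
    have h2 := one_le_pow₀ (n := 4) hb3
    exact one_le_mul_of_one_le_of_one_le (by linarith) h2
  intro R δ ε₀ P q' F hR hδ hε₀ hde hP hF
  have hR0 : 0 < R := by linarith
  set X := R ^ (2 * δ + ε₀) with hX
  have hX1 : 1 ≤ X := Real.one_le_rpow hR (by linarith)
  set s := Real.sqrt R with hs
  have hs0 : 0 < s := Real.sqrt_pos.2 hR0
  have hss : s * s = R := Real.mul_self_sqrt hR0.le
  have hsr : s = R ^ (1 / 2 : ℝ) := Real.sqrt_eq_rpow R
  set P' := 18 * C1 * P * X with hP'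
  have hCP : 1 ≤ C1 * P := one_le_mul_of_one_le_of_one_le hC1 hP
  have hP'X : 18 * X ≤ P' := by
    have : 1 * (18 * X) ≤ C1 * P * (18 * X) := by gcongr
    rw [hP']
    linarith
  have hP'1 : 1 ≤ P' := by linarith
  have hP'P : P ≤ P' := by
    have h1 : 1 ≤ 18 * C1 * X := one_le_mul_of_one_le_of_one_le (by linarith) hX1
    have h2 : P * 1 ≤ P * (18 * C1 * X) := by gcongr
    rw [hP']
    linarith
  have hP'C : 18 * C1 * X ≤ P' := by
    have h2 : (18 * C1 * X) * 1 ≤ (18 * C1 * X) * P := by gcongr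
    rw [hP']
    linarith
  have hPE : P' ≤ P' ^ (E + 1) := by
    have := Real.rpow_le_rpow_of_exponent_le hP'1 (show (1 : ℝ) ≤ E + 1 by linarith)
    rwa [Real.rpow_one] at this
  have hPE' : P' ^ E ≤ P' ^ (E + 1) :=
    Real.rpow_le_rpow_of_exponent_le hP'1 (by linarith)
  -- exponents
  have x1 : R ^ (1 / 2 + 2 * δ) = s * R ^ (2 * δ) := by
    rw [hsr, ← Real.rpow_add hR0]
  have x1' : R ^ (2 * δ) ≤ X := Real.rpow_le_rpow_of_exponent_le hR (by linarith)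
  have x2 : R ^ (1 - ε₀) * R ^ ε₀ = R := by
    rw [← Real.rpow_add hR0]
    simp
  have x2' : R ^ ε₀ ≤ X := Real.rpow_le_rpow_of_exponent_le hR (by linarith)
  have x3 : R ^ (1 / 2 + 2 * δ) * s = X * R ^ (1 - ε₀) := by
    rw [hsr, hX, ← Real.rpow_add hR0, ← Real.rpow_add hR0]
    congr 1
    ring
  have x4 : 0 < R ^ (1 - ε₀) := Real.rpow_pos_of_pos hR0 _
  have x5 : 0 < R ^ (1 / 2 + 2 * δ) := Real.rpow_pos_of_pos hR0 _
  have x6 : R ≤ R ^ (1 - ε₀) * X := by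
    calc R = R ^ (1 - ε₀) * R ^ ε₀ := x2.symm
      _ ≤ R ^ (1 - ε₀) * X := by gcongr
  -- geometry of one leg
  have leg : ∀ f ∈ F, ∀ i,
      ‖co R f.1 - co R (q' i) - (co R f.1 - co R (q' i)).2.2 • Dv (ctr (sR R) (f.2 i).1)‖ ≤
        4 * (C1 * R ^ (1 / 2 + 2 * δ)) ∧
      ‖(Lo (ctr (sR R) (f.2 i).1) 1 (co R f.1 - co R (q' i))).2.1‖ ≤
        C1 * R ^ (1 / 2 + 2 * δ) := by
    intro f hf i
    obtain ⟨h3, hI1, hI2, hl, hu⟩ := (hF f hf).2 i
    obtain ⟨g1, g2⟩ := hHG1 R δ (f.2 i) f.1 (q' i) hR hδ h3 hI1 hI2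
    exact ⟨dv_err _ _ _ h3 g1 g2, g2⟩
  -- the two claims
  have claims : (∃ u : Fin 2 → Z 2, ∀ f ∈ F, ∃ j,
        ‖co R f.1 - u j‖ ≤ (80 * C1 * CK * P' ^ (E + 1)) * s) ∧
      (∀ (q : Zi 2) (i : Fin 4), ∃ v : Pool.Agent.H83.G.E 2, ∀ f ∈ F, f.1 = q →
        ‖ctr (sR R) (f.2 i).1 - v‖ ≤ (24 * C1 * X) / s) := by
    rcases le_or_gt (8 * (C1 * R ^ (1 / 2 + 2 * δ))) (R ^ (1 - ε₀)) with hA | hB
    · have ht : ∀ f ∈ F, ∀ i, R ^ (1 - ε₀) ≤ 18 * |(co R f.1 - co R (q' i)).2.2| := by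
        intro f hf i
        obtain ⟨h3, hI1, hI2, hl, hu⟩ := (hF f hf).2 i
        have h4 := (leg f hf i).1
        have h5 := norm_le_norm_sub_add (co R f.1 - co R (q' i))
          ((co R f.1 - co R (q' i)).2.2 • Dv (ctr (sR R) (f.2 i).1))
        have h6 : ‖(co R f.1 - co R (q' i)).2.2 • Dv (ctr (sR R) (f.2 i).1)‖ ≤
            |(co R f.1 - co R (q' i)).2.2| * 9 := by
          rw [norm_smul, Real.norm_eq_abs]
          exact mul_le_mul_of_nonneg_left (dv_norm _ h3) (abs_nonneg _)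
        linarith
      constructor
      · obtain ⟨u, hu⟩ := hKG P' R (fun i => co R (q' i)) {p | ∃ f ∈ F, p = co R f.1} hP'1 hR (by
          rintro p ⟨f, hf, rfl⟩
          refine ⟨fun i => ctr (sR R) (f.2 i).1, fun i => (co R f.1 - co R (q' i)).2.2, ?_, ?_⟩
          · intro a
            refine le_trans ?_ ((hF f hf).1 a)
            have h1 : P'⁻¹ ≤ P⁻¹ := by
              rw [inv_le_inv₀ (by linarith) (by linarith)]
              exact hP'P
            exact mul_le_mul_of_nonneg_right h1 (Finset.sum_nonneg fun i _ => abs_nonneg _)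
          · intro i
            obtain ⟨h3, hI1, hI2, hl, hu⟩ := (hF f hf).2 i
            refine ⟨h3, ?_, ?_, ?_⟩
            · show R / P' ≤ |(co R f.1 - co R (q' i)).2.2|
              rw [div_le_iff₀ (by linarith)]
              have h4 := ht f hf i
              calc R ≤ R ^ (1 - ε₀) * X := x6
                _ ≤ (18 * |(co R f.1 - co R (q' i)).2.2|) * X := by gcongr
                _ = |(co R f.1 - co R (q' i)).2.2| * (18 * X) := by ring
                _ ≤ |(co R f.1 - co R (q' i)).2.2| * P' := by gcongr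
            · show |(co R f.1 - co R (q' i)).2.2| ≤ P' * R
              have h4 : |(co R f.1 - co R (q' i)).2.2| ≤ ‖co R f.1 - co R (q' i)‖ := by
                have := (norm_prod_le_iff.1 (norm_prod_le_iff.1
                  (le_refl ‖co R f.1 - co R (q' i)‖)).2).2
                rwa [Real.norm_eq_abs] at this
              have h5 : 10 * R ≤ P' * R := by
                have : (10 : ℝ) ≤ P' := by linarith
                gcongr
              linarith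
            · show ‖co R f.1 - co R (q' i) -
                (co R f.1 - co R (q' i)).2.2 • Dv (ctr (sR R) (f.2 i).1)‖ ≤
                P' * R ^ (1 / 2 : ℝ)
              refine (leg f hf i).1.trans ?_
              rw [x1, ← hsr]
              calc 4 * (C1 * (s * R ^ (2 * δ))) ≤ 4 * (C1 * (s * X)) := by gcongr
                _ = (4 * C1 * X) * s := by ring
                _ ≤ P' * s := by
                    have : 4 * C1 * X ≤ P' := by
                      have : 0 ≤ C1 * X := by positivity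
                      linarith
                    gcongr)
        refine ⟨u, fun f hf => ?_⟩
        obtain ⟨j, hj⟩ := hu (co R f.1) ⟨f, hf, rfl⟩
        refine ⟨j, hj.trans ?_⟩
        rw [← hsr]
        have h1 : CK * P' ^ E ≤ 80 * C1 * CK * P' ^ (E + 1) := by
          calc CK * P' ^ E ≤ CK * P' ^ (E + 1) := by gcongr
            _ = 1 * (CK * P' ^ (E + 1)) := by ring
            _ ≤ (80 * C1) * (CK * P' ^ (E + 1)) := by
                have : 1 ≤ 80 * C1 := by linarith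
                gcongr
            _ = _ := by ring
        gcongr
      · intro q i
        refine ⟨(-(2 * (co R q - co R (q' i)).2.2)⁻¹) • (co R q - co R (q' i)).2.1, ?_⟩
        rintro f hf rfl
        have h1 := ht f hf i
        have h2 := (leg f hf i).2
        set w := co R f.1 - co R (q' i) with hw
        set η := ctr (sR R) (f.2 i).1 with hη
        have hwt : 0 < |w.2.2| := by linarith
        have hwt' : w.2.2 ≠ 0 := abs_pos.1 hwt
        have e2 : (Lo η 1 w).2.1 = w.2.1 + (2 * w.2.2) • η := by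
          simp [Lo]
        have e3 : η - (-(2 * w.2.2)⁻¹) • w.2.1 = (2 * w.2.2)⁻¹ • (Lo η 1 w).2.1 := by
          rw [e2, smul_add, smul_smul, inv_mul_cancel₀ (by positivity), one_smul, neg_smul]
          abel
        rw [e3, norm_smul, norm_inv, Real.norm_eq_abs, abs_mul, abs_two, le_div_iff₀ hs0]
        calc (2 * |w.2.2|)⁻¹ * ‖(Lo η 1 w).2.1‖ * s
            ≤ (2 * |w.2.2|)⁻¹ * (C1 * R ^ (1 / 2 + 2 * δ)) * s := by gcongr
          _ = (2 * |w.2.2|)⁻¹ * (C1 * (R ^ (1 / 2 + 2 * δ) * s)) := by ring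
          _ = (2 * |w.2.2|)⁻¹ * (C1 * (X * R ^ (1 - ε₀))) := by rw [x3]
          _ ≤ (2 * |w.2.2|)⁻¹ * (C1 * (X * (18 * |w.2.2|))) := by gcongr
          _ = 9 * C1 * X := by
              field_simp
              norm_num
          _ ≤ 24 * C1 * X := by gcongr; norm_num
    · have hsX : s ≤ 8 * C1 * X := by
        have h1 : R ^ (1 - ε₀) * s ≤ 8 * (C1 * R ^ (1 / 2 + 2 * δ)) * s := by gcongr
        have h2 : 8 * (C1 * R ^ (1 / 2 + 2 * δ)) * s = (8 * C1 * X) * R ^ (1 - ε₀) := by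
          calc _ = 8 * C1 * (R ^ (1 / 2 + 2 * δ) * s) := by ring
            _ = _ := by rw [x3]; ring
        rw [h2, mul_comm] at h1
        exact le_of_mul_le_mul_right h1 x4
      constructor
      · refine ⟨fun _ => co R (q' 0), fun f hf => ⟨0, ?_⟩⟩
        obtain ⟨h3, hI1, hI2, hl, hu⟩ := (hF f hf).2 0
        refine hu.trans ?_
        calc 10 * R = (10 * s) * s := by rw [← hss]; ring
          _ ≤ (10 * (8 * C1 * X)) * s := by gcongr
          _ ≤ (80 * C1 * CK * P' ^ (E + 1)) * s := by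
              have h1 : X ≤ CK * P' ^ (E + 1) := by
                have h2 : X ≤ P' ^ (E + 1) := by linarith
                calc X ≤ P' ^ (E + 1) := h2
                  _ = 1 * P' ^ (E + 1) := by ring
                  _ ≤ CK * P' ^ (E + 1) := by gcongr
              calc (10 * (8 * C1 * X)) * s = 80 * C1 * X * s := by ring
                _ ≤ 80 * C1 * (CK * P' ^ (E + 1)) * s := by gcongr
                _ = _ := by ring
      · intro q i
        refine ⟨0, fun f hf _ => ?_⟩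
        obtain ⟨h3, hI1, hI2, hl, hu⟩ := (hF f hf).2 i
        rw [sub_zero, le_div_iff₀ hs0]
        calc ‖ctr (sR R) (f.2 i).1‖ * s ≤ 3 * (8 * C1 * X) := by gcongr
          _ = 24 * C1 * X := by ring
  obtain ⟨⟨u, hu⟩, hcap⟩ := claims
  have hA : ((F.image Prod.fst).card : ℝ) ≤
      2 * (3 * (80 * C1 * CK * P' ^ (E + 1))) ^ 4 := by
    refine cnt_two R _ hR ?_ u _ ?_
    · have h1 : (1 : ℝ) ≤ 80 * C1 := by linarith
      exact one_le_mul_of_one_le_of_one_le (one_le_mul_of_one_le_of_one_le h1 hCK)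
        (hP'1.trans hPE)
    · intro q hq
      obtain ⟨f, hf, rfl⟩ := Finset.mem_image.1 hq
      exact hu f hf
  have hN : ∀ (q : Zi 2) (i : Fin 4),
      (((F.filter fun f => f.1 = q).image fun f => f.2 i).card : ℝ) ≤
        (3 * (3 * (24 * C1 * X))) ^ 2 * (C2 * R ^ (4 * δ)) := by
    intro q i
    refine cnt_tubes R δ _ _ q _ (by positivity) ?_ ?_ ?_
    · intro k q TT hk hTT
      have := (hHG2 R δ hR hδ).2 k q TT hk hTT
      have e : (((2 : ℕ) : ℝ) + 2) * δ = 4 * δ := by push_cast; ring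
      rwa [e] at this
    · intro T hT
      obtain ⟨f, hf, rfl⟩ := Finset.mem_image.1 hT
      rw [Finset.mem_filter] at hf
      obtain ⟨h3, hI1, hI2, hl, hu⟩ := (hF f hf.1).2 i
      rw [← hf.2]
      exact ⟨h3, hI1⟩
    · intro S hS
      obtain ⟨v, hv⟩ := hcap q i
      refine cnt_pi (fun j => 3 * s * v j) _ ?_ S ?_
      · have : 1 ≤ C1 * X := one_le_mul_of_one_le_of_one_le hC1 hX1
        linarith
      · intro k hk j
        obtain ⟨T, hT, rfl⟩ := hS k hk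
        obtain ⟨f, hf, rfl⟩ := Finset.mem_image.1 hT
        rw [Finset.mem_filter] at hf
        exact ctr_ball R _ hR _ v (hv f hf.1 hf.2) j
  have hfin := cnt_stars _ _ F (by positivity) hA hN
  refine hfin.trans ?_
  have e1 : P' ^ (E + 1) = (18 * C1) ^ (E + 1) * P ^ (E + 1) * X ^ (E + 1) := by
    rw [hP', Real.mul_rpow (by positivity) (by positivity),
      Real.mul_rpow (by positivity) (by positivity)]
  have e2 : 2 * (3 * (80 * C1 * CK * P' ^ (E + 1))) ^ 4 *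
      ((3 * (3 * (24 * C1 * X))) ^ 2 * (C2 * R ^ (4 * δ))) ^ 4 =
      2 * (240 * C1 * CK * (18 * C1) ^ (E + 1)) ^ 4 * ((216 * C1) ^ 2 * C2) ^ 4 *
        (P ^ (E + 1)) ^ 4 * ((X ^ (E + 1)) ^ 4 * X ^ 8 * (R ^ (4 * δ)) ^ 4) := by
    rw [e1]
    ring
  have e3 : (P ^ (E + 1)) ^ 4 ≤ P ^ (8 * E + 40) := by
    rw [← Real.rpow_natCast, ← Real.rpow_mul (by linarith)]
    refine Real.rpow_le_rpow_of_exponent_le hP ?_
    push_cast
    linarith
  have e4 : (X ^ (E + 1)) ^ 4 * X ^ 8 * (R ^ (4 * δ)) ^ 4 ≤ R ^ ((8 * E + 40) * (δ + ε₀)) := by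
    have f1 : (X ^ (E + 1)) ^ 4 = R ^ ((2 * δ + ε₀) * (E + 1) * 4) := by
      rw [hX, ← Real.rpow_mul hR0.le, ← Real.rpow_natCast, ← Real.rpow_mul hR0.le]
      norm_num
    have f2 : X ^ 8 = R ^ ((2 * δ + ε₀) * 8) := by
      rw [hX, ← Real.rpow_natCast, ← Real.rpow_mul hR0.le]
      norm_num
    have f3 : (R ^ (4 * δ)) ^ 4 = R ^ (4 * δ * 4) := by
      rw [← Real.rpow_natCast, ← Real.rpow_mul hR0.le]
      norm_num
    rw [f1, f2, f3, ← Real.rpow_add hR0, ← Real.rpow_add hR0]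
    refine Real.rpow_le_rpow_of_exponent_le hR ?_
    have g1 : 0 ≤ E * ε₀ := by positivity
    nlinarith
  rw [e2]
  have hc0 : 0 ≤ 2 * (240 * C1 * CK * (18 * C1) ^ (E + 1)) ^ 4 * ((216 * C1) ^ 2 * C2) ^ 4 := by
    positivity
  gcongr

end Pool.Agent.H89.FP
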